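import Pool.Agent.AEC.StmtsS

set_option autoImplicit false

open FirstOrder FirstOrder.Language Cardinal Set

universe u

namespace Pool.Agent.AEC.S.H18

open Pool.Agent.AEC Pool.Agent.AEC.S

variable {L : FirstOrder.Language.{u, u}} {κ : Cardinal.{u}} {K : AEC L κ}

open scoped Classical in
/-- The permutation of the copies. -/
noncomputable def fn (O : Orb K) (π : Equiv.Perm O.ι) (y : O.N.α) : O.N.α :=
  if h : ∃ p : O.ι × O.N.α, p.2 ∈ O.C ∧ O.e p.1 p.2 = y then
    O.e (π h.choose.1) h.choose.2 else y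

theorem fn_e (O : Orb K) (π : Equiv.Perm O.ι) (k : O.ι) {x : O.N.α} (hx : x ∈ O.C) :
    fn O π (O.e k x) = O.e (π k) x := by
  have h : ∃ p : O.ι × O.N.α, p.2 ∈ O.C ∧ O.e p.1 p.2 = O.e k x := ⟨(k, x), hx, rfl⟩
  unfold fn
  rw [dif_pos h]
  obtain ⟨h1, h2⟩ := h.choose_spec
  have h3 : h.choose.1 = k := O.disj _ _ _ _ h1 hx h2
  have h5 : O.e h.choose.1 h.choose.2 = O.e k h.choose.2 := congrArg (fun j => O.e j h.choose.2) h3
  have h4 : h.choose.2 = x := (O.e k).injective (h5.symm.trans h2)
  rw [h3, h4]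

theorem fn_out (O : Orb K) (π : Equiv.Perm O.ι) {y : O.N.α}
    (hy : ∀ k, ∀ x ∈ O.C, O.e k x ≠ y) : fn O π y = y := by
  unfold fn
  rw [dif_neg]
  rintro ⟨p, h1, h2⟩
  exact hy p.1 p.2 h1 h2

theorem fn_fn (O : Orb K) (π σ : Equiv.Perm O.ι) (h : ∀ k, σ (π k) = k) (y : O.N.α) :
    fn O σ (fn O π y) = y := by
  by_cases hy : ∃ k, ∃ x ∈ O.C, O.e k x = y
  · obtain ⟨k, x, hx, rfl⟩ := hy
    rw [fn_e O π k hx, fn_e O σ (π k) hx, h]
  · have hy' : ∀ k, ∀ x ∈ O.C, O.e k x ≠ y := fun k x hx he => hy ⟨k, x, hx, he⟩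
    rw [fn_out O π hy', fn_out O σ hy']

theorem fn_B (O : Orb K) (π : Equiv.Perm O.ι) {y : O.N.α} (hy : y ∈ O.B) : fn O π y = y := by
  apply fn_out
  intro k x hx he
  have h1 : x = y := (O.e k).injective (he.trans (O.fix k y hy).symm)
  rw [h1] at hx
  exact O.dis y hy hx

theorem rel_fn (O : Orb K) (π : Equiv.Perm O.ι) {n : ℕ} (R : L.Relations n)
    (v : Fin n → O.N.α) (hv : Structure.RelMap R v) :
    Structure.RelMap R (fun i => fn O π (v i)) := by
  by_cases hex : ∃ i k, ∃ x ∈ O.C, O.e k x = v i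
  · obtain ⟨i, k, x, hx, he⟩ := hex
    have hsymm : Structure.RelMap R ((O.e k).symm ∘ v) := ((O.e k).symm.map_rel R v).2 hv
    have hmem : ∀ j, (O.e k).symm (v j) ∈ O.C ∨ (O.e k).symm (v j) ∈ O.B := by
      intro j
      by_cases hij : v j = v i
      · left
        rw [hij, ← he]
        have : (O.e k).symm (O.e k x) = x := (O.e k).symm_apply_apply x
        rw [this]
        exact hx
      · apply O.closed x hx
        refine ⟨?_, n, R, (O.e k).symm ∘ v, hsymm, ⟨i, ?_⟩, j, rfl⟩
        · intro h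
          apply hij
          rw [← he, h]
          exact ((O.e k).apply_symm_apply (v j)).symm
        · rw [Function.comp_apply, ← he]
          exact (O.e k).symm_apply_apply x
    have hfn : ∀ j, fn O π (v j) = O.e (π k) ((O.e k).symm (v j)) := by
      intro j
      have hvj : O.e k ((O.e k).symm (v j)) = v j := (O.e k).apply_symm_apply (v j)
      rcases hmem j with h | h
      · have h2 := fn_e O π k h
        rw [hvj] at h2
        exact h2
      · have h3 : (O.e k).symm (v j) = v j := (O.fix k _ h).symm.trans hvj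
        rw [h3] at h ⊢
        rw [fn_B O π h, O.fix (π k) _ h]
    have h4 : (fun j => fn O π (v j)) = O.e (π k) ∘ ((O.e k).symm ∘ v) := funext hfn
    rw [h4]
    exact ((O.e (π k)).map_rel R _).2 hsymm
  · have h5 : (fun j => fn O π (v j)) = v := by
      funext j
      apply fn_out
      intro k x hx he
      exact hex ⟨j, k, x, hx, he⟩
    rw [h5]
    exact hv

theorem prm : PrmStmt.{u} := by
  intro L _ κ K O π
  have h1 : ∀ k, π.symm (π k) = k := fun k => π.symm_apply_apply k
  have h2 : ∀ k, π (π.symm k) = k := fun k => π.apply_symm_apply k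
  let φ : O.N.α ≃[L] O.N.α :=
    { toFun := fn O π
      invFun := fn O π.symm
      left_inv := fn_fn O π π.symm h1
      right_inv := fn_fn O π.symm π h2
      map_fun' := fun f _ => isEmptyElim f
      map_rel' := fun {n} R v => by
        constructor
        · intro h
          have h3 := rel_fn O π.symm R _ h
          have h4 : (fun i => fn O π.symm ((fn O π ∘ v) i)) = v :=
            funext fun i => fn_fn O π π.symm h1 (v i)
          rw [← h4]
          exact h3
        · intro h
          exact rel_fn O π R v h }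
  refine ⟨φ, fun k x hx => fn_e O π k hx, fun y hy => fn_out O π hy⟩

end Pool.Agent.AEC.S.H18
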