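import Pool.Agent.AEC.StmtsB

set_option autoImplicit false

open FirstOrder FirstOrder.Language Cardinal Set

universe u

namespace Pool.Agent.AEC.H18

open Pool.Agent.AEC

variable {L : FirstOrder.Language.{u, u}} {κ : Cardinal.{u}}

/-- `p m` for `m < n`, and `q` for `m = n`. -/
def PP (K : AEC L κ) (n : ℕ) (p : ∀ m, Pat L κ.out m) (μ : Cardinal.{u})
    (q : Pat L κ.out n) : Prop :=
  ∃ (A : K.Mod) (T : K.Sys A) (_ : LinearOrder A.α) (Y : Set A.α),
    μ ≤ #Y ∧ (∀ m < n, ∀ e : Fin m ↪o A.α, (∀ i, e i ∈ Y) → T.pat e.toEmbedding = p m) ∧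
      ∀ e : Fin n ↪o A.α, (∀ i, e i ∈ Y) → T.pat e.toEmbedding = q

/-- The colour of a finite subset. -/
noncomputable def col {K : AEC L κ} {A : K.Mod} (T : K.Sys A) [LinearOrder A.α] (Y : Set A.α)
    (n : ℕ) (d : Pat L κ.out n) (s : Finset Y) : Pat L κ.out n :=
  if h : s.card = n then
    T.pat ((s.orderEmbOfFin h).trans (OrderEmbedding.subtype fun a => a ∈ Y)).toEmbedding
  else d

theorem col_eq {K : AEC L κ} {A : K.Mod} (T : K.Sys A) [LinearOrder A.α] (Y : Set A.α)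
    (n : ℕ) (d : Pat L κ.out n) (Y' : Set Y) (e : Fin n ↪o A.α)
    (he : ∀ i, e i ∈ (Subtype.val '' Y' : Set A.α)) :
    ∃ s : Finset Y, (s : Set Y) ⊆ Y' ∧ s.card = n ∧ col T Y n d s = T.pat e.toEmbedding := by
  have hY : ∀ i, e i ∈ Y := fun i => by
    obtain ⟨y, _, hy⟩ := he i
    rw [← hy]
    exact y.2
  have hY' : ∀ i, (⟨e i, hY i⟩ : Y) ∈ Y' := fun i => by
    obtain ⟨y, hy1, hy⟩ := he i
    have : y = ⟨e i, hY i⟩ := Subtype.ext hy
    rw [← this]
    exact hy1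
  let e' : Fin n ↪o Y := OrderEmbedding.ofMapLEIff (fun i => (⟨e i, hY i⟩ : Y)) (fun a b => by
    rw [Subtype.mk_le_mk]
    exact e.le_iff_le)
  have hcard : (Finset.univ.map e'.toEmbedding).card = n := by
    rw [Finset.card_map, Finset.card_univ, Fintype.card_fin]
  refine ⟨Finset.univ.map e'.toEmbedding, ?_, hcard, ?_⟩
  · intro y hy
    rw [Finset.mem_coe, Finset.mem_map] at hy
    obtain ⟨i, _, hi⟩ := hy
    rw [← hi]
    exact hY' i
  · unfold col
    rw [dif_pos hcard]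
    have h1 : e' = (Finset.univ.map e'.toEmbedding).orderEmbOfFin hcard := by
      refine Finset.orderEmbOfFin_unique' hcard fun i => ?_
      exact Finset.mem_map_of_mem _ (Finset.mem_univ i)
    rw [← h1]
    rfl

theorem exists_q (h : ErdStmt.{u}) (K : AEC L κ) (n : ℕ) (p : ∀ m, Pat L κ.out m)
    (hg : K.Good n p) (μ : Cardinal.{u}) : ∃ q, PP K n p μ q := by
  classical
  obtain ⟨ν, hν⟩ := h n (Pat L κ.out n) μ
  obtain ⟨A, T, lo, Y, hY, hp⟩ := hg ν
  obtain ⟨Y', hμ, hom⟩ := hν Y hY (col T Y n (p n))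
  have hμ' : μ ≤ #(Subtype.val '' Y' : Set A.α) := by
    rw [Cardinal.mk_image_eq Subtype.val_injective]
    exact hμ
  have hp' : ∀ m < n, ∀ e : Fin m ↪o A.α, (∀ i, e i ∈ (Subtype.val '' Y' : Set A.α)) →
      T.pat e.toEmbedding = p m := by
    intro m hm e he
    refine hp m hm e fun i => ?_
    obtain ⟨y, _, hy⟩ := he i
    rw [← hy]
    exact y.2
  by_cases hex : ∃ e : Fin n ↪o A.α, ∀ i, e i ∈ (Subtype.val '' Y' : Set A.α)
  · obtain ⟨e₀, he₀⟩ := hex
    refine ⟨T.pat e₀.toEmbedding, A, T, lo, Subtype.val '' Y', hμ', hp', fun e he => ?_⟩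
    obtain ⟨s, hs1, hs2, hs3⟩ := col_eq T Y n (p n) Y' e he
    obtain ⟨t, ht1, ht2, ht3⟩ := col_eq T Y n (p n) Y' e₀ he₀
    rw [← hs3, ← ht3]
    exact hom s t hs1 ht1 hs2 ht2
  · refine ⟨p n, A, T, lo, Subtype.val '' Y', hμ', hp', fun e he => ?_⟩
    exact absurd ⟨e, he⟩ hex

theorem tps (h : ErdStmt.{u}) : TpsStmt.{u} := by
  intro L κ K n p hg
  by_contra hcon
  have h1 : ∀ q : Pat L κ.out n, ∃ μ : Cardinal.{u}, ¬ PP K n p μ q := by
    intro q
    by_contra hq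
    apply hcon
    refine ⟨q, fun μ => ?_⟩
    have h2 : PP K n p μ q := by
      by_contra h3
      exact hq ⟨μ, h3⟩
    obtain ⟨A, T, lo, Y, hY, hp, hn⟩ := h2
    refine ⟨A, T, lo, Y, hY, fun m hm e he => ?_⟩
    rcases Nat.lt_succ_iff_lt_or_eq.1 hm with hm | hm
    · rw [Function.update_of_ne (Nat.ne_of_lt hm)]
      exact hp m hm e he
    · subst hm
      rw [Function.update_self]
      exact hn e he
  choose μ hμ using h1
  obtain ⟨q, A, T, lo, Y, hY, hp, hn⟩ := exists_q h K n p hg (⨆ q, μ q)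
  exact hμ q ⟨A, T, lo, Y, (le_ciSup Cardinal.bddAbove_of_small q).trans hY, hp, hn⟩

end Pool.Agent.AEC.H18
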